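import Pool.Agent.H402Z.StarFinite

/-!
No star-finite covering by closed balls of an infinite-dimensional separable Banach space whose
dual is separable, or whose norm is not 2-rough at a dense set of points, or whose norm is
octahedral.
-/

set_option autoImplicit false

namespace Pool.Agent.Results.MP_a8a0a5_an.AsplundOrOctahedral

open Pool.Agent.H402Z.StarFinite

universe u v

theorem result (E : Type u) [NormedAddCommGroup E] [NormedSpace ℝ E] [CompleteSpace E]
    [TopologicalSpace.SeparableSpace E] (hinf : ¬ FiniteDimensional ℝ E)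
    (h : TopologicalSpace.SeparableSpace (StrongDual ℝ E) ∨
      Dense {w : E | ∃ γ < (2 : ℝ), ∃ η > (0 : ℝ), ∀ v : E, ‖v‖ ≤ η →
        ‖w + v‖ + ‖w - v‖ - 2 * ‖w‖ ≤ γ * ‖v‖} ∨
      (∀ s : Finset E, (∀ x ∈ s, ‖x‖ = 1) → ∀ ε > (0 : ℝ), ∃ y : E, ‖y‖ = 1 ∧
        ∀ x ∈ s, 2 - ε ≤ ‖x + y‖)) :
    ¬ ∃ (ι : Type v) (c : ι → E) (r : ι → ℝ),
      (∀ i, 0 < r i) ∧
      (⋃ i, Metric.closedBall (c i) (r i)) = Set.univ ∧
      ∀ i, {j : ι | (Metric.closedBall (c i) (r i) ∩
        Metric.closedBall (c j) (r j)).Nonempty}.Finite := by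
  rintro ⟨ι, c, r, h1, h2, h3⟩
  have hc : Cover c r := ⟨h1, fun p => Set.mem_iUnion.mp (h2 ▸ Set.mem_univ p), h3⟩
  rcases h with h | h | h
  · exact hc.false_of_nonrough hinf dense_nonrough_of_separable_dual
  · exact hc.false_of_nonrough hinf h
  · exact hc.false_of_octahedral hinf h

end Pool.Agent.Results.MP_a8a0a5_an.AsplundOrOctahedral
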